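import Pool.Agent.Lib.SmJ.GridBad
import Pool.Agent.Lib.SmH.JG.GridR
import Pool.Agent.Lib.SmH.JG.Fam

/-!
HEIGHTS (MP_48b749_nt, MP_950c68_ag), block J+ for a general `V1`: the proportion of the families in a grid which are bad for `TypH`.
-/

set_option autoImplicit false

open Polynomial Pool.Agent.BSDP.R

namespace Pool.Agent.SmH.JG

open Pool.Agent.SmJ Pool.Agent.SmJ.BJ
open Pool.Agent.Sm (leg Irr PD)
open Pool.Agent.Sm.BJ (Pat pat Grid NearU card_mono card_proj card_or card_ex card_markov)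

variable {V : Type} [AddCommGroup V] [Module (ZMod 2) V]

/-- a non-generic tuple for the system with right sides -/
def BadR {k : Type} [Field k] (d : TwData k V) {S : Type} [Fintype S] {m : ℕ} (ps : S → k[X])
    (P : Fin m → k[X]) (W : Finset (Fin m)) (kk r : ℕ)
    (rhs : (Fin r → CodeF V d.h (S ⊕ Fin m)) → Fin m → Fin r → V) : Prop :=
  ∃ c : Fin r → CodeF V d.h (S ⊕ Fin m),
    (∀ j i, condF d (Sum.elim ps P) (c i) (Sum.inr j) = rhs c j i) ∧
    (¬ Dep (TF d S) (gF c) (xF c) ∧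
      ∃ v : Fin r → V, Nat.card {j : Fin m // j ∈ W ∧ xF c j = v} < kk)

section
variable {k : Type} [Field k] [Finite k] [Finite V] [Nontrivial V]

theorem badR_small (h2 : (2 : k) ≠ 0) (d : TwData k V) (kk r : ℕ) (hr : 1 ≤ r) (η : ℝ)
    (hη : 0 < η) : ∃ K : ℕ, ∀ (S : Type) (_ : Fintype S) (ps : S → k[X]) (m : ℕ)
      (dg : Fin m → ℕ), Function.Injective dg → NearU (Sum.elim ps d.ell) dg →
      ∀ (rhs : (Fin r → CodeF V d.h (S ⊕ Fin m)) → Fin m → Fin r → V) (W : Finset (Fin m)),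
      K * (1 + Nat.card S) ≤ W.card →
      (Nat.card {P : Grid k dg // BadR d ps (fun j => (P j).1) W kk r rhs} : ℝ) ≤
        η * Nat.card (Grid k dg) := by
  classical
  obtain ⟨C, hC⟩ := T2gridR h2 d r kk hr
  have hE2 : (2 : ℝ) ≤ (Nat.card V : ℝ) ^ r := by
    have e1 : 1 < Nat.card V := Finite.one_lt_card
    have e2 : 2 ≤ Nat.card V ^ r := by
      calc 2 ≤ Nat.card V ^ 1 := by rw [pow_one]; omega
        _ ≤ Nat.card V ^ r := Nat.pow_le_pow_right (by omega) hr
    exact_mod_cast e2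
  obtain ⟨K, hK⟩ := decay ((Nat.card V : ℝ) ^ r) hE2 kk d.h C hη
  refine ⟨K, ?_⟩
  intro S _ ps m dg hinj hU rhs W hW
  have h3 := hC S inferInstance ps m dg hinj hU rhs W
  have h4 := hK (Nat.card S) W.card hW
  have h5 := card_proj (A := Grid k dg) (B := Fin r → CodeF V d.h (S ⊕ Fin m))
    (fun P c => (∀ j i, condF d (Sum.elim ps fun j => (P j).1) (c i) (Sum.inr j) = rhs c j i) ∧
        (¬ Dep (TF d S) (gF c) (xF c) ∧
          ∃ v : Fin r → V, Nat.card {j : Fin m // j ∈ W ∧ xF c j = v} < kk))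
  have h6 : Nat.card {P : Grid k dg // BadR d ps (fun j => (P j).1) W kk r rhs} *
      (Nat.card V ^ r) ^ W.card ≤ 2 * Nat.card (Grid k dg) * (Nat.card V ^ r) ^ (1 + Nat.card S + d.h) *
        (C * (W.card + 1) ^ kk * (Nat.card V ^ r - 1) ^ W.card) :=
    (Nat.mul_le_mul_right _ h5).trans h3
  have h7 : (Nat.card {P : Grid k dg // BadR d ps (fun j => (P j).1) W kk r rhs} : ℝ) *
      ((Nat.card V : ℝ) ^ r) ^ W.card ≤ 2 * Nat.card (Grid k dg) *
        ((Nat.card V : ℝ) ^ r) ^ (1 + Nat.card S + d.h) *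
        (C * ((W.card : ℝ) + 1) ^ kk * ((Nat.card V : ℝ) ^ r - 1) ^ W.card) := by
    have h8 : ((Nat.card V ^ r - 1 : ℕ) : ℝ) = (Nat.card V : ℝ) ^ r - 1 := by
      have e1 : 1 ≤ Nat.card V ^ r := Nat.one_le_pow _ _ Nat.card_pos
      rw [Nat.cast_sub e1]
      push_cast
      rfl
    have h9 := (Nat.cast_le (α := ℝ)).2 h6
    simp only [Nat.cast_mul, Nat.cast_pow, h8, Nat.cast_add, Nat.cast_one, Nat.cast_ofNat]
      at h9
    exact h9
  have hpos : 0 < ((Nat.card V : ℝ) ^ r) ^ W.card := pow_pos (by linarith) _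
  refine le_of_mul_le_mul_right ?_ hpos
  calc _ ≤ _ := h7
    _ = Nat.card (Grid k dg) * (2 * ((Nat.card V : ℝ) ^ r) ^ (1 + Nat.card S + d.h) *
        (C * ((W.card : ℝ) + 1) ^ kk * ((Nat.card V : ℝ) ^ r - 1) ^ W.card)) := by ring
    _ ≤ Nat.card (Grid k dg) * (η * ((Nat.card V : ℝ) ^ r) ^ W.card) :=
        mul_le_mul_of_nonneg_left h4 (Nat.cast_nonneg _)
    _ = _ := by ring

/-- the proportion of the families bad for `TypH` -/
theorem grid_badH (h2 : (2 : k) ≠ 0) (d : TwData k V) (R kk : ℕ) (ε : ℝ) (hε : 0 < ε) :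
    ∃ K : ℕ, ∀ (S : Type) (_ : Fintype S) (ps : S → k[X]) (m : ℕ) (dg : Fin m → ℕ),
      Function.Injective dg → NearU (Sum.elim ps d.ell) dg →
      ∀ W W' : Finset (Fin m), K * (1 + Nat.card S) ≤ W.card →
      K * (1 + Nat.card S) ≤ W'.card → kk ≤ W'.card ∧
      (Nat.card {P : Grid k dg //
          (∃ r, 1 ≤ r ∧ r ≤ R ∧ BadT2 d ps (fun j => (P j).1) W' kk r) ∨
          ∃ r, r + 1 ≤ R ∧ BadTH d ps (fun j => (P j).1) W kk r} : ℝ) ≤
        ε * Nat.card (Grid k dg) := by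
  classical
  have hη : 0 < ε / (2 * (R + 1)) := by positivity
  have hT2 : ∀ r, 1 ≤ r → ∃ K : ℕ, ∀ (S : Type) (_ : Fintype S) (ps : S → k[X]) (m : ℕ)
      (dg : Fin m → ℕ), Function.Injective dg → NearU (Sum.elim ps d.ell) dg →
      ∀ (rhs : (Fin r → CodeF V d.h (S ⊕ Fin m)) → Fin m → Fin r → V) (W : Finset (Fin m)),
      K * (1 + Nat.card S) ≤ W.card →
      (Nat.card {P : Grid k dg // BadR d ps (fun j => (P j).1) W kk r rhs} : ℝ) ≤
        ε / (2 * (R + 1)) * Nat.card (Grid k dg) := fun r hr => badR_small h2 d kk r hr _ hη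
  choose! Kf hKf using hT2
  set K := ∑ r ∈ Finset.range (R + 2), Kf r + kk with hK
  refine ⟨K, ?_⟩
  intro S _ ps m dg hinj hU W W' hW hW'
  have hS1 : 1 ≤ 1 + Nat.card S := by omega
  have hkk : kk ≤ W'.card := by
    have e2 : kk * 1 ≤ K * (1 + Nat.card S) := Nat.mul_le_mul (by omega) hS1
    omega
  refine ⟨hkk, ?_⟩
  have hle : ∀ r ≤ R + 1, Kf r ≤ K := by
    intro r hr
    have := Finset.single_le_sum (f := Kf) (s := Finset.range (R + 2)) (fun i _ => Nat.zero_le _)
      (Finset.mem_range.2 (by omega : r < R + 2))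
    omega
  -- BadT2 at W'
  have hB2 : ∀ r ∈ Finset.range (R + 1), (Nat.card {P : Grid k dg //
      1 ≤ r ∧ BadT2 d ps (fun j => (P j).1) W' kk r} : ℝ) ≤
        ε / (2 * (R + 1)) * Nat.card (Grid k dg) := by
    intro r hr
    by_cases hr1 : 1 ≤ r
    · have h3 := hKf r hr1 S inferInstance ps m dg hinj hU (fun _ _ _ => 0) W' (le_trans
        (Nat.mul_le_mul_right _ (hle r (by
          have := Finset.mem_range.1 hr
          omega))) hW')
      refine le_trans ?_ h3
      have h4 : Nat.card {P : Grid k dg // 1 ≤ r ∧ BadT2 d ps (fun j => (P j).1) W' kk r} ≤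
          Nat.card {P : Grid k dg // BadR d ps (fun j => (P j).1) W' kk r
            (fun _ _ _ => 0)} :=
        card_mono fun P (hP : 1 ≤ r ∧ BadT2 d ps (fun j => (P j).1) W' kk r) => hP.2
      exact_mod_cast h4
    · have h3 : Nat.card {P : Grid k dg //
          1 ≤ r ∧ BadT2 d ps (fun j => (P j).1) W' kk r} = 0 := by
        have : IsEmpty {P : Grid k dg // 1 ≤ r ∧ BadT2 d ps (fun j => (P j).1) W' kk r} :=
          ⟨fun P => hr1 P.2.1⟩
        exact Nat.card_of_isEmpty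
      rw [h3]
      push_cast
      positivity
  -- BadTH at W
  have hBH : ∀ r ∈ Finset.range (R + 1), (Nat.card {P : Grid k dg //
      r + 1 ≤ R ∧ BadTH d ps (fun j => (P j).1) W kk r} : ℝ) ≤
        ε / (2 * (R + 1)) * Nat.card (Grid k dg) := by
    intro r hr
    by_cases hr1 : r + 1 ≤ R
    · have h3 := hKf (r + 2) (by omega) S inferInstance ps m dg hinj hU
        (fun c j i => rhsH dg c j i) W (le_trans
        (Nat.mul_le_mul_right _ (hle (r + 2) (by omega))) hW)
      refine le_trans ?_ h3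
      have h4 : Nat.card {P : Grid k dg // r + 1 ≤ R ∧ BadTH d ps (fun j => (P j).1) W kk r} ≤
          Nat.card {P : Grid k dg // BadR d ps (fun j => (P j).1) W kk (r + 2)
            (fun c j i => rhsH dg c j i)} := by
        apply card_mono
        rintro P ⟨_, c, hc1, hc2⟩
        refine ⟨c, ?_, hc2⟩
        intro j i
        rw [hc1 j i]
        have h5 : (fun j => ((P j).1).natDegree) = dg := funext fun j => (P j).2.2.2
        rw [h5]
      exact_mod_cast h4
    · have h3 : Nat.card {P : Grid k dg //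
          r + 1 ≤ R ∧ BadTH d ps (fun j => (P j).1) W kk r} = 0 := by
        have : IsEmpty {P : Grid k dg // r + 1 ≤ R ∧ BadTH d ps (fun j => (P j).1) W kk r} :=
          ⟨fun P => hr1 P.2.1⟩
        exact Nat.card_of_isEmpty
      rw [h3]
      push_cast
      positivity
  -- union bound
  have hU1 : Nat.card {P : Grid k dg //
          (∃ r, 1 ≤ r ∧ r ≤ R ∧ BadT2 d ps (fun j => (P j).1) W' kk r) ∨
          ∃ r, r + 1 ≤ R ∧ BadTH d ps (fun j => (P j).1) W kk r} ≤
      ∑ r ∈ Finset.range (R + 1), Nat.card {P : Grid k dg //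
          1 ≤ r ∧ BadT2 d ps (fun j => (P j).1) W' kk r} +
      ∑ r ∈ Finset.range (R + 1), Nat.card {P : Grid k dg //
          r + 1 ≤ R ∧ BadTH d ps (fun j => (P j).1) W kk r} := by
    refine (card_or _ _).trans (Nat.add_le_add ?_ ?_)
    · refine le_trans ?_ (card_ex (Finset.range (R + 1)) (fun r (P : Grid k dg) =>
        1 ≤ r ∧ BadT2 d ps (fun j => (P j).1) W' kk r))
      apply card_mono
      rintro P ⟨r, hr1, hrR, h⟩
      exact ⟨r, Finset.mem_range.2 (by omega), hr1, h⟩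
    · refine le_trans ?_ (card_ex (Finset.range (R + 1)) (fun r (P : Grid k dg) =>
        r + 1 ≤ R ∧ BadTH d ps (fun j => (P j).1) W kk r))
      apply card_mono
      rintro P ⟨r, hr1, h⟩
      exact ⟨r, Finset.mem_range.2 (by omega), hr1, h⟩
  have hU2 : (Nat.card {P : Grid k dg //
          (∃ r, 1 ≤ r ∧ r ≤ R ∧ BadT2 d ps (fun j => (P j).1) W' kk r) ∨
          ∃ r, r + 1 ≤ R ∧ BadTH d ps (fun j => (P j).1) W kk r} : ℝ) ≤
      ∑ r ∈ Finset.range (R + 1), (Nat.card {P : Grid k dg //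
          1 ≤ r ∧ BadT2 d ps (fun j => (P j).1) W' kk r} : ℝ) +
      ∑ r ∈ Finset.range (R + 1), (Nat.card {P : Grid k dg //
          r + 1 ≤ R ∧ BadTH d ps (fun j => (P j).1) W kk r} : ℝ) := by
    exact_mod_cast hU1
  refine hU2.trans ((add_le_add (Finset.sum_le_sum hB2) (Finset.sum_le_sum hBH)).trans
    (le_of_eq ?_))
  rw [Finset.sum_const, Finset.card_range, nsmul_eq_mul]
  push_cast
  field_simp
  ring

end

end Pool.Agent.SmH.JG
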